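import Pool.Agent.Lib_helper63.Pal.Final

/-!
MP_18fb49_co, Q1: the answer is no.
-/

namespace Pool.Agent.Results.MP_18fb49_co.NoUniformBound

open Pool.Agent.Lib_helper63.Pal

/-- There is an infinite word over four letters whose language is closed under reversal and
contains infinitely many palindromes, with `T(n) = 0` for all `n ≥ 8`, whose defect is `1`, and
for which no `H` exists such that the longest palindromic suffix of every factor of length at
least `H` is unioccurrent in that factor. -/
theorem result : ∃ v : ℕ → Fin 4,
    (∀ w ∈ lang v, w.reverse ∈ lang v) ∧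
    {w | w ∈ lang v ∧ IsPal w}.Infinite ∧
    (∀ n, 8 ≤ n → T v n = 0) ∧
    IsLUB (Set.range fun n => defect (win v 0 n)) 1 ∧
    ¬ ∃ H : ℕ, ∀ f ∈ lang v, H ≤ f.length → ∀ p, IsLPS p f → Unioccurrent p f := by
  refine ⟨u, closed_rev, inf_pal, T_zero, ⟨?_, ?_⟩, no_H⟩
  · rintro _ ⟨n, rfl⟩
    exact defect_le n
  · intro b hb
    refine le_trans ?_ (hb ⟨4, rfl⟩)
    have hw : win u 0 4 = ([0, 1, 2, 0] : List (Fin 4)) := by
      apply List.ext_getElem
      · simp [win_length]
      · intro j h1 h2
        rw [win_length] at h1
        simp only [win, List.getElem_map, List.getElem_range, zero_add]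
        rw [u_small j (by omega)]
        interval_cases j <;> rfl
    have hc : ({p | p <:+: win u 0 4 ∧ IsPal p} : Set (List (Fin 4))).ncard = 4 := by
      have h := palset_card (win u 0 4)
      rw [hw] at h ⊢
      exact h.trans (by decide)
    simp only [defect]
    rw [hc, win_length]
    norm_num

end Pool.Agent.Results.MP_18fb49_co.NoUniformBound
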